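import Pool.Agent.H30.GMCS.Conv

/-!
Geometric Manin's Conjecture fails for a `ℚ`-factorial terminal weak Fano variety.
-/

open GMC (PVar)
open GMCS

namespace Pool.Agent.Results.MP_ea1590_ag.TerminalCounterexample

/-- There is a `ℚ`-factorial terminal weak Fano variety `V` over `ℂ` for which there are no
integer `c` and nef curve class `α` such that there are exactly `c` Manin components of class `β`
for every curve class `β` in `α + Nef₁(V)`; moreover the number of Manin components of classes in
`α + Nef₁(V)` is not bounded, for every nef curve class `α`. -/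
theorem result : ∃ V : PVar, IsQFactorial V ∧ IsTerminal V ∧ IsWeakFano V ∧ ¬ Conjecture V ∧
    ∀ (α : (PrimeDiv V →₀ ℤ) → ℝ) (N : ℕ), IsNef1 α →
      ∃ β : (PrimeDiv V →₀ ℤ) → ℝ, IsCurveClass V β ∧ IsNef1 (fun D => β D - α D) ∧
        N ≤ (maninComponents V β).encard :=
  GMCS.main

end Pool.Agent.Results.MP_ea1590_ag.TerminalCounterexample
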